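import Pool.Agent.X84.Ex.Final

/-!
# MP_605199_an: a weakly mixing infinite measure-preserving isometry

There is a weakly mixing invertible measure-preserving transformation `T` of a standard non-atomic
sigma-finite infinite measure space and an admissible metric `d` for which `T` is an isometry. So `T`
is not measurably sensitive with respect to `d`, and Q1 has a negative answer.

Proof. A counting argument (`X84.Ex.block`) gives finite sets `d_n` of integers without short
relations (integer combinations with small coefficients are zero or huge) such that for every unit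
`z` with `|z - 1| ≥ 1 / (n + 1)` the numbers `z ^ d_n(i)` are spread over the circle, with a uniform
constant. Give the integers the largest group norm with `‖1‖ ≤ 1` and `‖d_n(i)‖ ≤ 8 ^ (-n-1)`; it is
a norm because there are no short relations (`X84.Ex.nu_lower`). Let `G` be the completion, `T` the
translation by `1` and `K` the compact group of digit sequences, embedded in `G` by
`c ↦ ∑ d_n(c_n)` (`X84.Ex.emb`). Two integer translates of the image of `K` meet only along finite
changes of digits (`X84.Ex.rigid`), so the Haar measure of `K` spreads along the orbits of `T` to a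
sigma-finite infinite invariant measure. A bounded eigenfunction with eigenvalue `z ≠ 1` vanishes,
because changing a late digit moves an integrable function little and multiplies an eigenfunction by
spread numbers (`X84.Ex.eig_zero`); an invariant function is constant (`X84.Ex.inv_const`).
-/

set_option autoImplicit false

namespace Pool.Agent.Results.MP_605199_an.WeakMixingIsometry

open MeasureTheory Set

/-- The function `d` is a metric on `X`. -/
structure IsMetric {X : Type} (d : X → X → ℝ) : Prop where
  self : ∀ x, d x x = 0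
  eq_of_zero : ∀ x y, d x y = 0 → x = y
  symm : ∀ x y, d x y = d y x
  triangle : ∀ x y z, d x z ≤ d x y + d y z

/-- Admissible metrics: every open ball is measurable and has positive measure. -/
def Admissible {X : Type} [MeasurableSpace X] (μ : Measure X) (d : X → X → ℝ) : Prop :=
  IsMetric d ∧ ∀ x, ∀ ε > 0, MeasurableSet {z | d x z < ε} ∧ 0 < μ {z | d x z < ε}

/-- The set of points of the ball of radius `ε` about `x` that are more than `δ` away from `x` at time `n`. -/
def Far {X : Type} (T : X → X) (d : X → X → ℝ) (δ ε : ℝ) (n : ℕ) (x : X) : Set X :=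
  {z | d x z < ε ∧ δ < d (T^[n] z) (T^[n] x)}

/-- Measurable sensitivity with respect to `d`. -/
def Sensitive {X : Type} [MeasurableSpace X] (μ : Measure X) (T : X → X) (d : X → X → ℝ) : Prop :=
  ∃ δ > 0, ∀ᵐ x ∂μ, ∀ ε > 0, ∃ n : ℕ, 0 < μ (Far T d δ ε n x)

/-- Weak mixing: `T` is ergodic and every essentially bounded eigenfunction is almost everywhere constant. -/
def WeaklyMixing {X : Type} [MeasurableSpace X] (μ : Measure X) (T : X → X) : Prop :=
  Ergodic T μ ∧ ∀ (f : X → ℂ) (lam : ℂ) (C : ℝ), Measurable f → (∀ᵐ x ∂μ, ‖f x‖ ≤ C) →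
    (∀ᵐ x ∂μ, f (T x) = lam * f x) → ∃ c : ℂ, ∀ᵐ x ∂μ, f x = c

/-- A standard non-atomic sigma-finite infinite measure space. -/
def InfiniteStandard {X : Type} [MeasurableSpace X] (μ : Measure X) : Prop :=
  StandardBorelSpace X ∧ SigmaFinite μ ∧ (∀ x, μ {x} = 0) ∧ μ Set.univ = ⊤

/-- There is a weakly mixing invertible measure-preserving transformation of an infinite measure space that is an
isometry for an admissible metric; so it is not measurably sensitive with respect to that metric. -/
theorem result : ∃ (X : Type) (_ : MeasurableSpace X) (μ : Measure X) (T : X ≃ᵐ X) (d : X → X → ℝ),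
    InfiniteStandard μ ∧ MeasurePreserving T μ μ ∧ WeaklyMixing μ T ∧ Admissible μ d ∧
    (∀ x y, d (T x) (T y) = d x y) ∧
    (∀ δ > 0, ∀ x, ∃ ε > 0, ∀ n, Far T d δ ε n x = ∅) ∧ ¬ Sensitive μ T d := by
  classical
  obtain ⟨S⟩ := X84.Ex.exists_sys
  let T : X84.Ex.G S ≃ᵐ X84.Ex.G S := MeasurableEquiv.addRight (X84.Ex.jj S 1)
  have hT : ∀ x, T x = X84.Ex.tau (X84.Ex.jj S) 1 x := fun x => rfl
  have hTfun : (T : X84.Ex.G S → X84.Ex.G S) = X84.Ex.tau (X84.Ex.jj S) 1 := funext hT
  have hmp : MeasurePreserving T (X84.Ex.mu S) (X84.Ex.mu S) := by rw [hTfun]; exact X84.Ex.mp S 1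
  have hsf : SigmaFinite (X84.Ex.mu S) := X84.Ex.spread_sigmaFinite (X84.Ex.jj S) (X84.Ex.AA_meas S) (X84.Ex.PI S)
  have hiso : ∀ x y, dist (T x) (T y) = dist x y := fun x y => dist_add_right x y _
  have hison : ∀ (n : ℕ) x y, dist (T^[n] x) (T^[n] y) = dist x y := by
    intro n
    induction n with
    | zero => intro x y; rfl
    | succ n ih => intro x y; rw [Function.iterate_succ_apply, Function.iterate_succ_apply, ih, hiso]
  have hfar : ∀ δ > 0, ∀ x, ∀ n, Far T dist δ δ n x = ∅ := by
    intro δ _ x n
    rw [Set.eq_empty_iff_forall_notMem]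
    rintro z ⟨h1, h2⟩
    rw [hison, dist_comm] at h2
    exact lt_asymm h1 h2
  have heig : ∀ (f : X84.Ex.G S → ℂ) (lam : ℂ) (C : ℝ), Measurable f → (∀ᵐ x ∂(X84.Ex.mu S), ‖f x‖ ≤ C) →
      (∀ᵐ x ∂(X84.Ex.mu S), f (T x) = lam * f x) → ∃ c : ℂ, ∀ᵐ x ∂(X84.Ex.mu S), f x = c :=
    fun f lam C hf hC he => X84.Ex.eig S f lam C hf hC he
  have herg : Ergodic T (X84.Ex.mu S) := by
    refine ⟨hmp, ⟨fun s hs hinv => ?_⟩⟩
    obtain ⟨c, hc⟩ := heig (s.indicator fun _ => (1 : ℂ)) 1 1 (measurable_const.indicator hs)
      (Filter.Eventually.of_forall fun x => by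
        by_cases hx : x ∈ s
        · simp [hx]
        · simp [hx])
      (Filter.Eventually.of_forall fun x => by
        rw [one_mul]
        have h1 : T x ∈ s ↔ x ∈ s := by rw [← Set.mem_preimage, hinv]
        by_cases hx : x ∈ s
        · simp [hx, h1.mpr hx]
        · have h2 : T x ∉ s := fun h => hx (h1.mp h)
          simp [hx, h2])
    rw [Filter.eventuallyConst_set]
    by_cases hc1 : c = 1
    · left
      filter_upwards [hc] with x hx
      by_contra hxs
      rw [Set.indicator_of_notMem hxs, hc1] at hx
      exact zero_ne_one hx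
    · right
      filter_upwards [hc] with x hx hxs
      rw [Set.indicator_of_mem hxs] at hx
      exact hc1 hx.symm
  refine ⟨X84.Ex.G S, inferInstance, X84.Ex.mu S, T, dist,
    ⟨X84.Ex.std_G S, hsf, X84.Ex.spread_noAtoms (X84.Ex.jj S) (X84.Ex.AA_meas S) (X84.Ex.mm_point S), X84.Ex.mu_infinite S⟩,
    hmp, ⟨herg, heig⟩, ⟨⟨dist_self, fun x y h => dist_eq_zero.mp h, dist_comm, dist_triangle⟩, fun x ε hε => ⟨?_, X84.Ex.ball_pos S x ε hε⟩⟩,
    hiso, fun δ hδ x => ⟨δ, hδ, fun n => hfar δ hδ x n⟩, ?_⟩
  · exact (isOpen_lt (continuous_const.dist continuous_id) continuous_const).measurableSet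
  · rintro ⟨δ, hδ, hs⟩
    have hne : X84.Ex.mu S ≠ 0 := by
      intro h0
      have := X84.Ex.mu_infinite S
      rw [h0] at this
      simp at this
    have : (ae (X84.Ex.mu S)).NeBot := ae_neBot.mpr hne
    obtain ⟨x, hx⟩ := hs.exists
    obtain ⟨n, hn⟩ := hx δ hδ
    rw [hfar δ hδ x n, measure_empty] at hn
    exact lt_irrefl _ hn

end Pool.Agent.Results.MP_605199_an.WeakMixingIsometry
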